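import Pool.Agent.Y874.TP.Stm

/-!
# TP-CUT: cutting along a double curve

The labels of the two matched passages are replaced by the swap in the wreath product of the free
group with the group of order two.
-/

set_option autoImplicit false

namespace Pool.Agent.Y220.TP

open Pool.Agent.Y468.SR Pool.Agent.Y874.TP

/-! ### The wreath product -/

/-- the wreath product with the group of order two -/
@[ext] structure Wr (F : Type) where
  /-- the first component -/
  a : F
  /-- the second component -/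
  b : F
  /-- the permutation -/
  e : Bool

section wr
variable {F : Type} [Group F]

instance : Mul (Wr F) := ⟨fun x y =>
  ⟨x.a * (if x.e = true then y.b else y.a), x.b * (if x.e = true then y.a else y.b), xor x.e y.e⟩⟩
instance : One (Wr F) := ⟨⟨1, 1, false⟩⟩
instance : _root_.Inv (Wr F) := ⟨fun x =>
  ⟨if x.e = true then x.b⁻¹ else x.a⁻¹, if x.e = true then x.a⁻¹ else x.b⁻¹, x.e⟩⟩

theorem mul_a (x y : Wr F) : (x * y).a = x.a * (if x.e = true then y.b else y.a) := rfl
theorem mul_b (x y : Wr F) : (x * y).b = x.b * (if x.e = true then y.a else y.b) := rfl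
theorem mul_e (x y : Wr F) : (x * y).e = xor x.e y.e := rfl
theorem one_a : (1 : Wr F).a = 1 := rfl
theorem one_b : (1 : Wr F).b = 1 := rfl
theorem one_e : (1 : Wr F).e = false := rfl
theorem inv_a (x : Wr F) : (x⁻¹).a = if x.e = true then x.b⁻¹ else x.a⁻¹ := rfl
theorem inv_b (x : Wr F) : (x⁻¹).b = if x.e = true then x.a⁻¹ else x.b⁻¹ := rfl
theorem inv_e (x : Wr F) : (x⁻¹).e = x.e := rfl

instance : Group (Wr F) := Group.ofLeftAxioms
  (by
    intro x y z
    obtain ⟨xa, xb, xe⟩ := x
    obtain ⟨ya, yb, ye⟩ := y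
    obtain ⟨za, zb, ze⟩ := z
    cases xe <;> cases ye <;> cases ze <;>
      ext <;> simp [mul_a, mul_b, mul_e, mul_assoc])
  (by
    intro x
    ext <;> simp [mul_a, mul_b, mul_e, one_a, one_b, one_e])
  (by
    intro x
    obtain ⟨xa, xb, xe⟩ := x
    cases xe <;>
      ext <;> simp [mul_a, mul_b, mul_e, one_a, one_b, one_e, inv_a, inv_b, inv_e])

/-- the embedding as the first factor -/
def emb : F →* Wr F where
  toFun x := ⟨x, 1, false⟩
  map_one' := rfl
  map_mul' x y := by ext <;> simp [mul_a, mul_b, mul_e]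

theorem emb_a (x : F) : (emb x).a = x := rfl
theorem emb_b (x : F) : (emb x).b = 1 := rfl
theorem emb_e (x : F) : (emb x).e = false := rfl

/-- the swap -/
def tt (F : Type) [Group F] : Wr F := ⟨1, 1, true⟩

theorem twist_eq (Y Z : F) :
    tt F * emb Y * (tt F)⁻¹ * emb Z = ⟨Z, Y, false⟩ := by
  ext <;> simp [mul_a, mul_b, mul_e, inv_a, inv_b, inv_e, emb_a, emb_b, emb_e, tt]

theorem conj_emb (g : Wr F) (x : F) : g * emb x * g⁻¹ =
    if g.e = true then ⟨1, g.b * x * g.b⁻¹, false⟩ else ⟨g.a * x * g.a⁻¹, 1, false⟩ := by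
  obtain ⟨ga, gb, ge⟩ := g
  cases ge <;>
    ext <;> simp [mul_a, mul_b, mul_e, inv_a, inv_b, inv_e, emb_a, emb_b, emb_e]

end wr

theorem pc_map {G H : Type} [Group G] [Group H] (φ : G →* H) {l : List G} {r : G} (h : PC l r) :
    PC (l.map φ) (φ r) := by
  induction h with
  | nil => simpa using PC.nil
  | cons x g r l _ ih => simpa using PC.cons (φ x) (φ g) (φ r) (l.map φ) ih

/-- the relation between the old and the new members -/
def Rl (b b' : ℕ) (C' C : List Pass × ℕ) : Prop :=
  C'.1 = C.1 ∧ (C'.2 = C.2 ∨ (C.2 = b ∧ C'.2 = b'))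

theorem split_pc {F : Type} [Group F] {b b' : ℕ} (hbb : b ≠ b') (v : List Pass → F) (S : Code)
    (hS : ∀ C ∈ S, C.2 ≠ b') : ∀ r : Wr F,
    PC ((bv (S.map fun C => (v C.1, C.2)) b).map emb) r → r.e = false ∧
      ∃ S' : Code, List.Forall₂ (Rl b b') S' S ∧
        PC (bv (S'.map fun C => (v C.1, C.2)) b) r.a ∧
        PC (bv (S'.map fun C => (v C.1, C.2)) b') r.b := by
  induction S with
  | nil =>
    intro r h
    simp only [List.map_nil, bv_nil] at h
    cases h
    exact ⟨rfl, [], List.Forall₂.nil, PC.nil, PC.nil⟩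
  | cons C S ih =>
    intro r h
    have ih' := ih fun C' hC' => hS C' (List.mem_cons_of_mem _ hC')
    have hC := hS C (by simp)
    by_cases hb : C.2 = b
    · simp only [List.map_cons, bv_cons, hb, if_true] at h
      generalize hl : (bv (S.map fun C => (v C.1, C.2)) b).map emb = l at h ih'
      cases h with
      | cons _ g r' _ h =>
        obtain ⟨he, S', h1, h2, h3⟩ := ih' r' h
        rw [conj_emb]
        by_cases hg : g.e = true
        · simp only [if_pos hg]
          refine ⟨by simp [mul_e, he], (C.1, b') :: S', List.Forall₂.cons ⟨rfl, Or.inr ⟨hb, rfl⟩⟩ h1,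
            ?_, ?_⟩
          · simp only [List.map_cons, bv_cons, if_neg hbb.symm, mul_a]
            simpa using h2
          · simp only [List.map_cons, bv_cons, if_true, mul_b]
            simpa using PC.cons (v C.1) g.b r'.b _ h3
        · simp only [if_neg hg]
          refine ⟨by simp [mul_e, he], (C.1, b) :: S', List.Forall₂.cons ⟨rfl, Or.inl hb.symm⟩ h1,
            ?_, ?_⟩
          · simp only [List.map_cons, bv_cons, if_true, mul_a]
            simpa using PC.cons (v C.1) g.a r'.a _ h2
          · simp only [List.map_cons, bv_cons, if_neg hbb, mul_b]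
            simpa using h3
    · simp only [List.map_cons, bv_cons, if_neg hb] at h
      obtain ⟨he, S', h1, h2, h3⟩ := ih' r h
      refine ⟨he, C :: S', List.Forall₂.cons ⟨rfl, Or.inl rfl⟩ h1, ?_, ?_⟩
      · simp only [List.map_cons, bv_cons, if_neg hb]
        exact h2
      · simp only [List.map_cons, bv_cons, if_neg hC]
        exact h3

theorem fst_eq {b b' : ℕ} {S' S : Code} (h : List.Forall₂ (Rl b b') S' S) :
    S'.map Prod.fst = S.map Prod.fst := by
  induction h with
  | nil => rfl
  | cons h _ ih => rw [List.map_cons, List.map_cons, ih, h.1]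

theorem passes_eq {b b' : ℕ} {S' S : Code} (h : List.Forall₂ (Rl b b') S' S) :
    passes S' = passes S := by
  induction h with
  | nil => rfl
  | cons h _ ih => rw [passes_cons, passes_cons, ih, h.1]

theorem bv_eq {b b' : ℕ} {S' S : Code} (h : List.Forall₂ (Rl b b') S' S) {G : Type} [Group G]
    (o u : ℕ → G) {k : ℕ} (hk : k ≠ b) (hk' : k ≠ b') :
    bv (vals o u S') k = bv (vals o u S) k := by
  induction h with
  | nil => rfl
  | @cons C' C S' S h _ ih =>
    have e1 : vals o u (C' :: S') = (wval o u C'.1, C'.2) :: vals o u S' := rfl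
    have e2 : vals o u (C :: S) = (wval o u C.1, C.2) :: vals o u S := rfl
    rw [e1, e2, bv_cons, bv_cons, ih, h.1]
    rcases h.2 with h2 | ⟨h2, h3⟩
    · simp only [h2]
    · simp only [h2, h3, if_neg hk.symm, if_neg hk'.symm]

theorem bv_map {G H : Type} [Group G] [Group H] (o u : ℕ → G) (o' u' : ℕ → H) (φ : G → H)
    (D : Code) (k : ℕ) (h : ∀ C ∈ D, wval o' u' C.1 = φ (wval o u C.1)) :
    bv (vals o' u' D) k = (bv (vals o u D) k).map φ := by
  induction D with
  | nil => rfl
  | cons C D ih =>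
    have e1 : vals o u (C :: D) = (wval o u C.1, C.2) :: vals o u D := rfl
    have e2 : vals o' u' (C :: D) = (wval o' u' C.1, C.2) :: vals o' u' D := rfl
    rw [e1, e2, bv_cons, bv_cons, ih fun C' h' => h C' (List.mem_cons_of_mem _ h'),
      h C (by simp)]
    by_cases hk : C.2 = k
    · simp [hk]
    · simp [hk]

theorem cut : S_CUT := by
  intro p q y z b b' S m hW hI h0 h1 h2 hbb hS
  obtain ⟨hm, hcm, hN⟩ := hI
  set P := passes ((p :: (y ++ q :: z), b) :: S) with hP
  have hpP : p ∈ P := by simp [hP]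
  have hqP : q ∈ P := by simp [hP]
  have hyP : ∀ r ∈ y, r ∈ P := fun r hr => by simp [hP, hr]
  have hzP : ∀ r ∈ z, r ∈ P := fun r hr => by simp [hP, hr]
  have hSP : ∀ C ∈ S, ∀ r ∈ C.1, r ∈ P := fun C hC r hr => by
    rw [hP, passes_cons]
    exact List.mem_append_right _ (mem_passes.2 ⟨C, hC, hr⟩)
  have hpq : p.crossing ≠ q.crossing := by rw [h1]; exact Ne.symm h0
  have hmq : m q.crossing = p.crossing := by rw [h1]; exact matching_invol hm hpP
  have eq_of : ∀ r ∈ P, ∀ r' ∈ P, r.crossing = r'.crossing → r.isOver = r'.isOver → r = r' :=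
    fun r hr r' hr' hc ho => List.inj_on_of_nodup_map hW.2 hr hr' (by simp [hc, ho])
  have hnd : (p :: ((y ++ q :: z) ++ passes S)).Nodup := by
    have := WF.nodup hW
    simpa [hP] using this
  have hnd' : (p ∉ y ∧ p ∉ z ∧ q ∉ y ∧ q ∉ z) ∧ p ∉ passes S ∧ q ∉ passes S := by
    rw [List.nodup_cons, List.append_assoc, List.nodup_append] at hnd
    obtain ⟨h3, h4, h5, h6⟩ := hnd
    rw [List.cons_append, List.nodup_cons] at h5
    exact ⟨⟨fun h => h3 (by simp [h]), fun h => h3 (by simp [h]), fun h => h6 q h q (by simp) rfl,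
      fun h => h5.1 (by simp [h])⟩, fun h => h3 (by simp [h]), fun h => h5.1 (by simp [h])⟩
  obtain ⟨⟨hpy, hpz, hqy, hqz⟩, hpS, hqS⟩ := hnd'
  -- the twisted labels
  have hv2 := valid_tw (valid_map (emb (F := FreeGroup (ℕ × Bool))) (valid_letter hm)) hm h1.symm
    hmq hpq (tt (FreeGroup (ℕ × Bool))) p.isOver
  set o' := tw p.crossing q.crossing (tt (FreeGroup (ℕ × Bool))) p.isOver fun c => emb (fo m c)
    with ho'
  set u' := tw p.crossing q.crossing (tt (FreeGroup (ℕ × Bool))) (!p.isOver) fun c => emb (fu m c)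
    with hu'
  have hval : ∀ w : List Pass, (∀ r ∈ w, r ∈ P) → p ∉ w → q ∉ w →
      wval o' u' w = emb (wval (fo m) (fu m) w) := by
    intro w hw hpw hqw
    rw [← wval_map]
    refine wval_congr fun r hr => ?_
    rw [ho', hu', val_tw]
    split_ifs with k1 k2 k3
    · exact absurd (eq_of r (hw r hr) p hpP k2 k1 ▸ hr) hpw
    · exact absurd (eq_of r (hw r hr) q hqP k3 (k1.trans h2.symm) ▸ hr) hqw
    · rfl
    · rfl
  have hvp : val o' u' p = tt _ := by
    rw [ho', hu', val_tw, if_pos rfl, if_pos rfl]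
  have hvq : val o' u' q = (tt _)⁻¹ := by
    rw [ho', hu', val_tw, if_pos h2, if_neg hpq.symm, if_pos rfl]
  have h3 := hN _ o' u' hv2 b
  have e3 : vals o' u' ((p :: (y ++ q :: z), b) :: S) =
      (wval o' u' (p :: (y ++ q :: z)), b) :: vals o' u' S := rfl
  rw [e3, bv_cons, if_pos rfl] at h3
  simp only [wval_cons, wval_append] at h3
  rw [hvp, hvq, hval y hyP hpy hqy, hval z hzP hpz hqz, ← mul_assoc, ← mul_assoc, twist_eq] at h3
  have e4 : bv (vals o' u' S) b = (bv (vals (fo m) (fu m) S) b).map emb := by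
    refine bv_map _ _ _ _ _ S b fun C hC => ?_
    exact hval C.1 (hSP C hC) (fun h => hpS (mem_passes.2 ⟨C, hC, h⟩))
      (fun h => hqS (mem_passes.2 ⟨C, hC, h⟩))
  rw [e4] at h3
  obtain ⟨r, h4, h5⟩ := h3.head
  obtain ⟨he, S', h6, h7, h8⟩ := split_pc hbb (wval (fo m) (fu m)) S hS r h4
  have h9 : wval (fo m) (fu m) z * r.a = 1 := by
    have := congrArg Wr.a h5
    simpa [mul_a, one_a] using this
  have h10 : wval (fo m) (fu m) y * r.b = 1 := by
    have := congrArg Wr.b h5
    simpa [mul_b, one_b] using this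
  have c1 : CN (wval (fo m) (fu m) z :: bv (vals (fo m) (fu m) S') b) := CN.of_head h7 h9
  have c2 : CN (wval (fo m) (fu m) y :: bv (vals (fo m) (fu m) S') b') := CN.of_head h8 h10
  -- the new passages
  have hmem : ∀ r, r ∈ P ↔ r ∈ passes ((p :: q :: z, b) :: (y, b') :: S') := by
    intro r
    simp only [hP, passes_cons, passes_eq h6, List.mem_append, List.mem_cons]
    tauto
  refine ⟨S', fst_eq h6, h6.imp fun _ _ h => h.2, ?_, ?_, ?_⟩
  · exact matching_congr hmem hm
  · intro r hr
    exact hcm r ((hmem r).2 hr)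
  · intro G _ o u hv k
    have hv' : Valid P m o u := valid_congr (fun r => (hmem r).symm) hv
    obtain ⟨φ, hφ⟩ := univ hv'
    have e5 : ∀ k, bv (vals o u S') k = (bv (vals (fo m) (fu m) S') k).map φ := by
      intro k
      refine bv_map _ _ _ _ _ S' k fun C hC => ?_
      refine (hφ C.1 fun r hr => ?_).symm
      rw [hmem]
      simp only [passes_cons, List.mem_append]
      exact Or.inr (Or.inr (mem_passes.2 ⟨C, hC, hr⟩))
    have e6 : vals o u ((p :: q :: z, b) :: (y, b') :: S') =
        (wval o u (p :: q :: z), b) :: (wval o u y, b') :: vals o u S' := rfl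
    have e7 : wval o u (p :: q :: z) = φ (wval (fo m) (fu m) z) := by
      simp only [wval_cons]
      obtain ⟨-, k2⟩ := hv' p hpP
      obtain ⟨k3, k4⟩ := k2 h0
      rw [← h1] at k3 k4
      rw [← mul_assoc, (val_pair p q h2.symm k3 k4).1, one_mul]
      exact (hφ z hzP).symm
    rw [e6, bv_cons, bv_cons]
    by_cases hk : k = b
    · subst hk
      rw [if_pos rfl, if_neg hbb.symm, e7, e5]
      exact (pc_map φ c1).of_eq (map_one φ)
    · by_cases hk' : k = b'
      · subst hk'
        rw [if_neg hbb, if_pos rfl, e5, ← hφ y hyP]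
        exact (pc_map φ c2).of_eq (map_one φ)
      · rw [if_neg (Ne.symm hk), if_neg (Ne.symm hk'), bv_eq h6 o u hk hk']
        have h11 := hN G o u hv' k
        have e8 : vals o u ((p :: (y ++ q :: z), b) :: S) =
            (wval o u (p :: (y ++ q :: z)), b) :: vals o u S := rfl
        rw [e8, bv_cons, if_neg (Ne.symm hk)] at h11
        exact h11

end Pool.Agent.Y220.TP
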